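import Pool.Agent.Helper38.Thick.Level3

/-!
# Level 3 from shares of the colours
-/

set_option autoImplicit false
set_option linter.unusedSectionVars false

namespace Pool.Agent.Helper38.SC

open Pool.Agent.Helper28.BPack Pool.Agent.Helper61.Motz Pool.Agent.Helper38.Thick

/-- Hall's theorem from shares (helper40). -/
theorem hall_shares {X Y : Type} [Fintype X] [DecidableEq X] [DecidableEq Y]
    (W : X → Finset Y) (τ : X → Y → ℚ) (h0 : ∀ x y, 0 ≤ τ x y)
    (hdem : ∀ x, 1 ≤ ∑ y ∈ W x, τ x y)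
    (hload : ∀ y, ∑ x ∈ Finset.univ.filter (fun x => y ∈ W x), τ x y ≤ 1) :
    ∃ F : X → Y, Function.Injective F ∧ ∀ x, F x ∈ W x := by
  apply (Finset.all_card_le_biUnion_card_iff_exists_injective W).mp
  intro s
  have h1 : (s.card : ℚ) ≤ ∑ x ∈ s, ∑ y ∈ W x, τ x y := by
    calc (s.card : ℚ) = ∑ x ∈ s, (1 : ℚ) := by simp
      _ ≤ _ := Finset.sum_le_sum fun x _ => hdem x
  have h2 : ∑ x ∈ s, ∑ y ∈ W x, τ x y =
      ∑ y ∈ s.biUnion W, ∑ x ∈ s.filter (fun x => y ∈ W x), τ x y := by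
    have h3 : ∀ x ∈ s, ∑ y ∈ W x, τ x y = ∑ y ∈ s.biUnion W, if y ∈ W x then τ x y else 0 := by
      intro x hx
      rw [← Finset.sum_filter]
      apply Finset.sum_congr
      · ext y
        rw [Finset.mem_filter, Finset.mem_biUnion]
        exact ⟨fun h => ⟨⟨x, hx, h⟩, h⟩, fun h => h.2⟩
      · intros; rfl
    rw [Finset.sum_congr rfl h3, Finset.sum_comm]
    apply Finset.sum_congr rfl
    intro y _
    rw [Finset.sum_filter]
  have h4 : ∑ y ∈ s.biUnion W, ∑ x ∈ s.filter (fun x => y ∈ W x), τ x y ≤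
      ((s.biUnion W).card : ℚ) := by
    calc _ ≤ ∑ y ∈ s.biUnion W, (1 : ℚ) := by
          apply Finset.sum_le_sum
          intro y _
          refine le_trans ?_ (hload y)
          apply Finset.sum_le_sum_of_subset_of_nonneg
          · intro x hx
            rw [Finset.mem_filter] at hx ⊢
            exact ⟨Finset.mem_univ _, hx.2⟩
          · intro x _ _
            exact h0 x y
      _ = _ := by simp
  have h5 : (s.card : ℚ) ≤ ((s.biUnion W).card : ℚ) := by linarith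
  exact_mod_cast h5

variable {L : Type} [Lattice L] [BoundedOrder L] [Finite L] [IsUpperModularLattice L]

/-- A line of the pencil. -/
theorem pen_spec [DecidableEq L] [DecidableRel (α := L) (· ≤ ·)] {A : Finset L}
    (hA : ∀ a ∈ A, IsAtom a) {x c H g : L} (hx : x ∈ A) (hc : c ∈ A) (hxc : x ≠ c)
    (hH : rk H = 3) (hkH : x ⊔ c ≤ H) (hg : g ∈ pen A x (x ⊔ c) H) :
    rk g = 2 ∧ x ≤ g ∧ g ≤ H ∧ ¬ c ≤ g ∧ g ⊔ c = H := by
  obtain ⟨z, hz, hzH, hzk, rfl⟩ := mem_pen.mp hg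
  have hxz : x ≠ z := fun h => hzk (h ▸ le_sup_left)
  have hxA := hA x hx
  have hcA := hA c hc
  have h2 : rk (x ⊔ z) = 2 := rk_line hxA (hA z hz) hxz
  have hn : ¬ c ≤ x ⊔ z := by
    intro h
    have h3 : x ⊔ c = x ⊔ z := line_of hxA hcA hxc le_sup_left h h2
    exact hzk (h3 ▸ le_sup_right)
  have hle : x ⊔ z ≤ H := sup_le (le_sup_left.trans hkH) hzH
  exact ⟨h2, le_sup_left, hle, hn, eq_of_le_of_rk (sup_le hle (le_sup_right.trans hkH))
    (by rw [rk_sup_atom hcA hn, h2, hH])⟩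

/-- **Level 3.** Every user `x` owns the usable colours `C x`, its plane for the colour `c` is
`HH c x`, the colour `c` has the share `σ c g` of the line `g`. -/
theorem level3_gen [DecidableEq L] [DecidableRel (α := L) (· ≤ ·)] {A R : Finset L} {u : L}
    {C : L → Finset L} {HH : L → L → L} {σ : L → L → ℚ}
    (hA : ∀ a ∈ A, IsAtom a)
    (hR : ∀ x ∈ R, x ∈ A ∧ ¬ x ≤ u)
    (hC : ∀ x ∈ R, ∀ c ∈ C x, c ∈ A ∧ c ≤ u ∧ rk (HH c x) = 3 ∧ x ⊔ c ≤ HH c x)
    (hinj : ∀ c, ∀ x ∈ R, c ∈ C x → ∀ y ∈ R, c ∈ C y → HH c x = HH c y → x ⊔ c = y ⊔ c)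
    (hσ0 : ∀ c g, 0 ≤ σ c g)
    (hσ1 : ∀ g, rk g = 2 → ∑ c ∈ A.filter (· ≤ u), σ c g ≤ 1)
    (hval : ∀ x ∈ R, 1 ≤ ∑ c ∈ C x, ∑ g ∈ pen A x (x ⊔ c) (HH c x), σ c g) :
    ∃ cc gg : L → L, (∀ x ∈ R, cc x ∈ C x ∧ gg x ∈ A ∧ gg x ≤ HH (cc x) x ∧
        ¬ gg x ≤ x ⊔ cc x) ∧
      (∀ x ∈ R, ∀ y ∈ R, x ⊔ gg x = y ⊔ gg y → x = y) := by
  classical
  set T : L → L → Finset L := fun x c => pen A x (x ⊔ c) (HH c x) with hT
  have hspec : ∀ x ∈ R, ∀ c ∈ C x, ∀ g ∈ T x c,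
      rk g = 2 ∧ x ≤ g ∧ g ≤ HH c x ∧ ¬ c ≤ g ∧ g ⊔ c = HH c x := by
    intro x hx c hc g hg
    obtain ⟨h1, h2, h3, h4⟩ := hC x hx c hc
    exact pen_spec hA (hR x hx).1 h1 (fun e => (hR x hx).2 (by rw [e]; exact h2)) h3 h4 hg
  obtain ⟨F, hFinj, hF⟩ := hall_shares (X := R) (Y := L)
    (fun x => (C x.1).biUnion (fun c => T x.1 c))
    (fun x g => ∑ c ∈ (C x.1).filter (fun c => g ∈ T x.1 c), σ c g)
    (fun x g => Finset.sum_nonneg fun c _ => hσ0 c g)
    (fun x => by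
      refine (hval x.1 x.2).trans (le_of_eq ?_)
      have h1 : ∀ c ∈ C x.1, ∑ g ∈ T x.1 c, σ c g =
          ∑ g ∈ (C x.1).biUnion (fun c => T x.1 c), if g ∈ T x.1 c then σ c g else 0 := by
        intro c hc
        rw [← Finset.sum_filter]
        apply Finset.sum_congr
        · ext g
          rw [Finset.mem_filter, Finset.mem_biUnion]
          exact ⟨fun h => ⟨⟨c, hc, h⟩, h⟩, fun h => h.2⟩
        · intros; rfl
      rw [Finset.sum_congr rfl h1, Finset.sum_comm]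
      apply Finset.sum_congr rfl
      intro g _
      rw [Finset.sum_filter])
    (fun g => by
      rw [Finset.sum_sigma']
      set S := (Finset.univ.filter (fun x : R => g ∈ (C x.1).biUnion (fun c => T x.1 c))).sigma
        (fun x => (C x.1).filter (fun c => g ∈ T x.1 c)) with hS
      have hmS : ∀ p ∈ S, p.2 ∈ C p.1.1 ∧ g ∈ T p.1.1 p.2 := by
        intro p hp
        rw [hS, Finset.mem_sigma, Finset.mem_filter] at hp
        exact ⟨(Finset.mem_filter.mp hp.2).1, (Finset.mem_filter.mp hp.2).2⟩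
      by_cases hne : S.Nonempty
      · obtain ⟨p0, hp0⟩ := hne
        have hg2 : rk g = 2 := (hspec p0.1.1 p0.1.2 p0.2 (hmS p0 hp0).1 g (hmS p0 hp0).2).1
        have hinjS : Set.InjOn (fun p : (Σ _ : R, L) => p.2) S := by
          intro p hp q hq e
          have e' : p.2 = q.2 := e
          obtain ⟨h1, h2⟩ := hmS p hp
          obtain ⟨h3, h4⟩ := hmS q hq
          rw [← e'] at h3 h4
          obtain ⟨k1, k2, k3, k4, k5⟩ := hspec p.1.1 p.1.2 p.2 h1 g h2
          obtain ⟨l1, l2, l3, l4, l5⟩ := hspec q.1.1 q.1.2 p.2 h3 g h4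
          have h5 := hinj p.2 p.1.1 p.1.2 h1 q.1.1 q.1.2 h3 (k5.symm.trans l5)
          have hpA := hA _ (hR p.1.1 p.1.2).1
          have hqA := hA _ (hR q.1.1 q.1.2).1
          have hcA := hA _ (hC p.1.1 p.1.2 p.2 h1).1
          have h6 : p.1.1 = q.1.1 := by
            by_contra hne
            have h7 : p.1.1 ⊔ q.1.1 = g := line_of hpA hqA hne k2 l2 k1
            have h8 : p.1.1 ⊔ q.1.1 ≤ p.1.1 ⊔ p.2 := sup_le le_sup_left (h5 ▸ le_sup_left)
            have hpc : p.1.1 ≠ p.2 := fun e => (hR p.1.1 p.1.2).2 (by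
              rw [e]; exact (hC p.1.1 p.1.2 p.2 h1).2.1)
            have h9 : p.1.1 ⊔ q.1.1 = p.1.1 ⊔ p.2 := eq_of_le_of_rk h8 (by
              rw [rk_line hpA hqA hne, rk_line hpA hcA hpc])
            exact k4 (by rw [← h7, h9]; exact le_sup_right)
          have h7 : p.1 = q.1 := Subtype.ext h6
          exact Sigma.ext h7 (heq_of_eq e')
        calc ∑ p ∈ S, σ p.2 g = ∑ c ∈ S.image (fun p => p.2), σ c g := by
              rw [Finset.sum_image hinjS]
          _ ≤ ∑ c ∈ A.filter (· ≤ u), σ c g := by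
              apply Finset.sum_le_sum_of_subset_of_nonneg
              · intro c hc
                obtain ⟨p, hp, rfl⟩ := Finset.mem_image.mp hc
                have h1 := hC p.1.1 p.1.2 p.2 (hmS p hp).1
                exact Finset.mem_filter.mpr ⟨h1.1, h1.2.1⟩
              · intro c _ _
                exact hσ0 c g
          _ ≤ 1 := hσ1 g hg2
      · rw [Finset.not_nonempty_iff_eq_empty] at hne
        rw [hne]
        simp)
  have hz : ∀ x ∈ R, ∃ c z, c ∈ C x ∧ z ∈ A ∧ z ≤ HH c x ∧ ¬ z ≤ x ⊔ c ∧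
      x ⊔ z = (if hx : x ∈ R then F ⟨x, hx⟩ else x) := by
    intro x hx
    have h1 := hF ⟨x, hx⟩
    rw [Finset.mem_biUnion] at h1
    obtain ⟨c, hc, h2⟩ := h1
    obtain ⟨z, h3, h4, h5, h6⟩ := mem_pen.mp h2
    exact ⟨c, z, hc, h3, h4, h5, by rw [dif_pos hx]; exact h6⟩
  choose! cc gg h1 h2 h3 h4 h5 using hz
  refine ⟨cc, gg, fun x hx => ⟨h1 x hx, h2 x hx, h3 x hx, h4 x hx⟩, ?_⟩
  intro x hx y hy e
  rw [h5 x hx, h5 y hy, dif_pos hx, dif_pos hy] at e
  exact congrArg Subtype.val (hFinj e)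

end Pool.Agent.Helper38.SC
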