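import Pool.Agent.Helper38.SC.Types
import Pool.Agent.Helper38.SC.Shares3

/-!
# Rank four data from owned rows, planes and shares
-/

set_option autoImplicit false
set_option linter.unusedSectionVars false

namespace Pool.Agent.Helper38.SC

open Pool.Agent.Helper28.BPack Pool.Agent.Helper61.Motz Pool.Agent.Helper38.Thick

variable {L : Type} [Lattice L] [BoundedOrder L] [Finite L] [IsUpperModularLattice L]

/-- **Level 3** with the usable lines `Ls x c`. -/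
theorem level3_ls [DecidableEq L] [DecidableRel (α := L) (· ≤ ·)] {A R : Finset L} {u : L}
    {C : L → Finset L} {HH : L → L → L} {Ls : L → L → Finset L} {σ : L → L → ℚ}
    (hA : ∀ a ∈ A, IsAtom a)
    (hR : ∀ x ∈ R, x ∈ A ∧ ¬ x ≤ u)
    (hC : ∀ x ∈ R, ∀ c ∈ C x, c ∈ A ∧ c ≤ u ∧ rk (HH c x) = 3 ∧ x ⊔ c ≤ HH c x)
    (hLs : ∀ x ∈ R, ∀ c ∈ C x, Ls x c ⊆ pen A x (x ⊔ c) (HH c x))
    (hinj : ∀ c, ∀ x ∈ R, c ∈ C x → ∀ y ∈ R, c ∈ C y → HH c x = HH c y → x ⊔ c = y ⊔ c)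
    (hσ0 : ∀ c g, 0 ≤ σ c g)
    (hσ1 : ∀ g, rk g = 2 → ∑ c ∈ A.filter (· ≤ u), σ c g ≤ 1)
    (hval : ∀ x ∈ R, 1 ≤ ∑ c ∈ C x, ∑ g ∈ Ls x c, σ c g) :
    ∃ cc gg : L → L, (∀ x ∈ R, cc x ∈ C x ∧ gg x ∈ A ∧ gg x ≤ HH (cc x) x ∧
        ¬ gg x ≤ x ⊔ cc x ∧ x ⊔ gg x ∈ Ls x (cc x)) ∧
      (∀ x ∈ R, ∀ y ∈ R, x ⊔ gg x = y ⊔ gg y → x = y) := by
  classical
  have hspec : ∀ x ∈ R, ∀ c ∈ C x, ∀ g ∈ Ls x c,
      rk g = 2 ∧ x ≤ g ∧ g ≤ HH c x ∧ ¬ c ≤ g ∧ g ⊔ c = HH c x := by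
    intro x hx c hc g hg
    obtain ⟨h1, h2, h3, h4⟩ := hC x hx c hc
    exact pen_spec hA (hR x hx).1 h1 (fun e => (hR x hx).2 (by rw [e]; exact h2)) h3 h4
      (hLs x hx c hc hg)
  obtain ⟨F, hFinj, hF⟩ := hall_shares (X := R) (Y := L)
    (fun x => (C x.1).biUnion (fun c => Ls x.1 c))
    (fun x g => ∑ c ∈ (C x.1).filter (fun c => g ∈ Ls x.1 c), σ c g)
    (fun x g => Finset.sum_nonneg fun c _ => hσ0 c g)
    (fun x => by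
      refine (hval x.1 x.2).trans (le_of_eq ?_)
      have h1 : ∀ c ∈ C x.1, ∑ g ∈ Ls x.1 c, σ c g =
          ∑ g ∈ (C x.1).biUnion (fun c => Ls x.1 c), if g ∈ Ls x.1 c then σ c g else 0 := by
        intro c hc
        rw [← Finset.sum_filter]
        apply Finset.sum_congr
        · ext g
          rw [Finset.mem_filter, Finset.mem_biUnion]
          exact ⟨fun h => ⟨⟨c, hc, h⟩, h⟩, fun h => h.2⟩
        · intros; rfl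
      rw [Finset.sum_congr rfl h1, Finset.sum_comm]
      apply Finset.sum_congr rfl
      intro g _
      rw [Finset.sum_filter])
    (fun g => by
      rw [Finset.sum_sigma']
      set S := (Finset.univ.filter (fun x : R => g ∈ (C x.1).biUnion (fun c => Ls x.1 c))).sigma
        (fun x => (C x.1).filter (fun c => g ∈ Ls x.1 c)) with hS
      have hmS : ∀ p ∈ S, p.2 ∈ C p.1.1 ∧ g ∈ Ls p.1.1 p.2 := by
        intro p hp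
        rw [hS, Finset.mem_sigma, Finset.mem_filter] at hp
        exact ⟨(Finset.mem_filter.mp hp.2).1, (Finset.mem_filter.mp hp.2).2⟩
      by_cases hne : S.Nonempty
      · obtain ⟨p0, hp0⟩ := hne
        have hg2 : rk g = 2 := (hspec p0.1.1 p0.1.2 p0.2 (hmS p0 hp0).1 g (hmS p0 hp0).2).1
        have hinjS : Set.InjOn (fun p : (Σ _ : R, L) => p.2) S := by
          intro p hp q hq e
          have e' : p.2 = q.2 := e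
          obtain ⟨h1, h2⟩ := hmS p hp
          obtain ⟨h3, h4⟩ := hmS q hq
          rw [← e'] at h3 h4
          obtain ⟨k1, k2, k3, k4, k5⟩ := hspec p.1.1 p.1.2 p.2 h1 g h2
          obtain ⟨l1, l2, l3, l4, l5⟩ := hspec q.1.1 q.1.2 p.2 h3 g h4
          have h5 := hinj p.2 p.1.1 p.1.2 h1 q.1.1 q.1.2 h3 (k5.symm.trans l5)
          have hpA := hA _ (hR p.1.1 p.1.2).1
          have hqA := hA _ (hR q.1.1 q.1.2).1
          have hcA := hA _ (hC p.1.1 p.1.2 p.2 h1).1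
          have h6 : p.1.1 = q.1.1 := by
            by_contra hne
            have h7 : p.1.1 ⊔ q.1.1 = g := line_of hpA hqA hne k2 l2 k1
            have h8 : p.1.1 ⊔ q.1.1 ≤ p.1.1 ⊔ p.2 := sup_le le_sup_left (h5 ▸ le_sup_left)
            have hpc : p.1.1 ≠ p.2 := fun e => (hR p.1.1 p.1.2).2 (by
              rw [e]; exact (hC p.1.1 p.1.2 p.2 h1).2.1)
            have h9 : p.1.1 ⊔ q.1.1 = p.1.1 ⊔ p.2 := eq_of_le_of_rk h8 (by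
              rw [rk_line hpA hqA hne, rk_line hpA hcA hpc])
            exact k4 (by rw [← h7, h9]; exact le_sup_right)
          have h7 : p.1 = q.1 := Subtype.ext h6
          exact Sigma.ext h7 (heq_of_eq e')
        calc ∑ p ∈ S, σ p.2 g = ∑ c ∈ S.image (fun p => p.2), σ c g := by
              rw [Finset.sum_image hinjS]
          _ ≤ ∑ c ∈ A.filter (· ≤ u), σ c g := by
              apply Finset.sum_le_sum_of_subset_of_nonneg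
              · intro c hc
                obtain ⟨p, hp, rfl⟩ := Finset.mem_image.mp hc
                have h1 := hC p.1.1 p.1.2 p.2 (hmS p hp).1
                exact Finset.mem_filter.mpr ⟨h1.1, h1.2.1⟩
              · intro c _ _
                exact hσ0 c g
          _ ≤ 1 := hσ1 g hg2
      · rw [Finset.not_nonempty_iff_eq_empty] at hne
        rw [hne]
        simp)
  have hz : ∀ x ∈ R, ∃ c z, c ∈ C x ∧ z ∈ A ∧ z ≤ HH c x ∧ ¬ z ≤ x ⊔ c ∧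
      x ⊔ z = (if hx : x ∈ R then F ⟨x, hx⟩ else x) ∧ x ⊔ z ∈ Ls x c := by
    intro x hx
    have h1 := hF ⟨x, hx⟩
    rw [Finset.mem_biUnion] at h1
    obtain ⟨c, hc, h2⟩ := h1
    obtain ⟨z, h3, h4, h5, h6⟩ := mem_pen.mp (hLs x hx c hc h2)
    exact ⟨c, z, hc, h3, h4, h5, by rw [dif_pos hx]; exact h6, by rw [h6]; exact h2⟩
  choose! cc gg h1 h2 h3 h4 h5 h6 using hz
  refine ⟨cc, gg, fun x hx => ⟨h1 x hx, h2 x hx, h3 x hx, h4 x hx, h6 x hx⟩, ?_⟩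
  intro x hx y hy e
  rw [h5 x hx, h5 y hy, dif_pos hx, dif_pos hy] at e
  exact congrArg Subtype.val (hFinj e)

/-- **Rank four data** from owned rows `C x`, planes `HH a x` and shares `σ a g`. -/
theorem crit4_of_own [DecidableEq L] [DecidableRel (α := L) (· ≤ ·)] {A Rp : Finset L}
    {u b1 b2 r1 r2 : L} {c d : L → L} {C : L → Finset L} {HH : L → L → L}
    {Ls : L → L → Finset L} {σ : L → L → ℚ}
    (hA : ∀ a ∈ A, IsAtom a) (hu : rk u = 2)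
    (hb1 : b1 ∈ A) (hb2 : b2 ∈ A) (hb12 : b1 ⊔ b2 = u)
    (hr1 : r1 ∈ Rp) (hr2 : r2 ∈ Rp) (h4 : rk (u ⊔ r1 ⊔ r2) = 4)
    (hRp : ∀ x ∈ Rp, x ∈ A ∧ ¬ x ≤ u)
    (hRP : ∀ x ∈ Rp, ∀ y ∈ Rp, y ≤ x ⊔ u → x = y)
    (hI : ∀ q ∈ A, q ≤ u → q ≠ b1 → q ≠ b2 → c q ∈ A ∧ d q ∈ A ∧ rk (u ⊔ c q ⊔ d q) = 4)
    (hII : ∀ q ∈ Rp, q ≠ r1 → q ≠ r2 → c q ∈ A ∧ c q ≤ u ∧ d q ∈ A ∧ d q ≤ u ∧ c q ≠ d q)
    (h12 : ∀ q ∈ A, q ≤ u → q ≠ b1 → q ≠ b2 → ∀ s ∈ Rp, s ≠ r1 → s ≠ r2 → (c s = q ∨ d s = q) →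
      ¬ s ≤ q ⊔ c q ∧ ¬ s ≤ q ⊔ d q)
    -- the owned rows and their planes
    (hC : ∀ x ∈ A, ¬ x ≤ u → x ∉ Rp → ∀ a ∈ C x, a ∈ A ∧ a ≤ u ∧ rk (HH a x) = 3 ∧
      x ⊔ a ≤ HH a x ∧ ¬ u ≤ HH a x)
    (hrow : ∀ a, ∀ x ∈ A, ¬ x ≤ u → x ∉ Rp → a ∈ C x → ∀ y ∈ A, ¬ y ≤ u → y ∉ Rp → a ∈ C y →
      x ⊔ a = y ⊔ a → x = y)
    (h13 : ∀ q ∈ A, q ≤ u → q ≠ b1 → q ≠ b2 → ∀ x ∈ A, ¬ x ≤ u → x ∉ Rp → q ∈ C x →
      ¬ x ≤ q ⊔ c q ∧ ¬ x ≤ q ⊔ d q ∧ HH q x ≠ q ⊔ c q ⊔ d q)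
    (h23 : ∀ s ∈ Rp, s ≠ r1 → s ≠ r2 → ∀ x ∈ A, ¬ x ≤ u → x ∉ Rp →
      (c s ∈ C x → ¬ s ≤ x ⊔ c s) ∧ (d s ∈ C x → ¬ s ≤ x ⊔ d s))
    (h03 : ∀ x ∈ A, ¬ x ≤ u → x ∉ Rp → ∀ b, (b = b1 ∨ b = b2) → b ∈ C x →
      ¬ r1 ≤ x ⊔ b ∧ ¬ r2 ≤ x ⊔ b ∧ HH b x ≠ b ⊔ (r1 ⊔ r2))
    (hinj : ∀ a, ∀ x ∈ A, ¬ x ≤ u → x ∉ Rp → a ∈ C x → ∀ y ∈ A, ¬ y ≤ u → y ∉ Rp → a ∈ C y →
      HH a x = HH a y → x ⊔ a = y ⊔ a)
    -- the shares
    (hLs : ∀ x ∈ A, ¬ x ≤ u → x ∉ Rp → ∀ a ∈ C x, Ls x a ⊆ pen A x (x ⊔ a) (HH a x))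
    (hLv : ∀ x ∈ A, ¬ x ≤ u → x ∉ Rp → ∀ a ∈ C x, r1 ⊔ r2 ∉ Ls x a)
    (hσ0 : ∀ a g, 0 ≤ σ a g)
    (hσ1 : ∀ g, rk g = 2 → ∑ a ∈ A.filter (· ≤ u), σ a g ≤ 1)
    (hval : ∀ x ∈ A, ¬ x ≤ u → x ∉ Rp → 1 ≤ ∑ a ∈ C x, ∑ g ∈ Ls x a, σ a g) : Crit4 A := by
  classical
  set R : Finset L := A.filter (fun x => ¬ x ≤ u ∧ x ∉ Rp) with hRdef
  have hmR : ∀ x, x ∈ R ↔ x ∈ A ∧ ¬ x ≤ u ∧ x ∉ Rp := fun x => by simp [hRdef]
  obtain ⟨cc, gg, hcc, hgg⟩ := level3_ls (A := A) (R := R) (u := u) (C := C) (HH := HH)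
    (Ls := Ls) (σ := σ) hA
    (fun x hx => ⟨((hmR x).mp hx).1, ((hmR x).mp hx).2.1⟩)
    (fun x hx a ha => by
      obtain ⟨h1, h2, h3⟩ := (hmR x).mp hx
      obtain ⟨k1, k2, k3, k4, k5⟩ := hC x h1 h2 h3 a ha
      exact ⟨k1, k2, k3, k4⟩)
    (fun x hx a ha => by
      obtain ⟨h1, h2, h3⟩ := (hmR x).mp hx
      exact hLs x h1 h2 h3 a ha)
    (fun a x hx ha y hy hb e => by
      obtain ⟨h1, h2, h3⟩ := (hmR x).mp hx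
      obtain ⟨k1, k2, k3⟩ := (hmR y).mp hy
      exact hinj a x h1 h2 h3 ha y k1 k2 k3 hb e)
    hσ0 hσ1
    (fun x hx => by
      obtain ⟨h1, h2, h3⟩ := (hmR x).mp hx
      exact hval x h1 h2 h3)
  -- the choice functions
  set c' : L → L := fun q => if q ∈ R then cc q else c q with hc'
  set d' : L → L := fun q => if q ∈ R then gg q else d q with hd'
  have eR : ∀ x ∈ A, ¬ x ≤ u → x ∉ Rp → c' x = cc x ∧ d' x = gg x := fun x h1 h2 h3 => by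
    have h5 : x ∈ R := (hmR x).mpr ⟨h1, h2, h3⟩
    simp only [hc', hd', if_pos h5, and_self]
  have eI : ∀ x, x ≤ u → c' x = c x ∧ d' x = d x := fun x h => by
    have h5 : x ∉ R := fun h' => ((hmR x).mp h').2.1 h
    simp only [hc', hd', if_neg h5, and_self]
  have eII : ∀ x ∈ Rp, c' x = c x ∧ d' x = d x := fun x h => by
    have h5 : x ∉ R := fun h' => ((hmR x).mp h').2.2 h
    simp only [hc', hd', if_neg h5, and_self]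
  have key : ∀ x ∈ A, ¬ x ≤ u → x ∉ Rp → cc x ∈ C x ∧ gg x ∈ A ∧ gg x ≤ HH (cc x) x ∧
      ¬ gg x ≤ x ⊔ cc x ∧ x ⊔ gg x ∈ Ls x (cc x) := fun x h1 h2 h3 =>
    hcc x ((hmR x).mpr ⟨h1, h2, h3⟩)
  have pl : ∀ x ∈ A, ¬ x ≤ u → x ∉ Rp → x ⊔ cc x ⊔ gg x = HH (cc x) x := fun x h1 h2 h3 => by
    obtain ⟨k1, k2, k3, k4, k5⟩ := key x h1 h2 h3
    obtain ⟨l1, l2, l3, l4, l5⟩ := hC x h1 h2 h3 _ k1
    refine eq_of_le_of_rk (sup_le l4 k3) ?_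
    rw [rk_sup_atom (hA _ k2) k4, rk_line (hA x h1) (hA _ l1) (fun e => h2 (by rw [e]; exact l2)),
      l3]
  refine crit4_of_types (A := A) (Rp := Rp) (u := u) (b1 := b1) (b2 := b2) (r1 := r1) (r2 := r2)
    (c := c') (d := d') hA hu hb1 hb2 hb12 hr1 hr2 h4 hRp hRP ?_ ?_ ?_ ?_ ?_ ?_ ?_ ?_ ?_ ?_ ?_ ?_ ?_
  · intro q hq hqu n1 n2
    rw [(eI q hqu).1, (eI q hqu).2]
    exact hI q hq hqu n1 n2
  · intro q hq n1 n2
    rw [(eII q hq).1, (eII q hq).2]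
    exact hII q hq n1 n2
  · intro x h1 h2 h3
    rw [(eR x h1 h2 h3).1, (eR x h1 h2 h3).2, pl x h1 h2 h3]
    obtain ⟨k1, k2, k3, k4, k5⟩ := key x h1 h2 h3
    obtain ⟨l1, l2, l3, l4, l5⟩ := hC x h1 h2 h3 _ k1
    exact ⟨l1, l2, k2, l3, l5⟩
  · intro q hq hqu n1 n2 s hs m1 m2
    rw [(eI q hqu).1, (eI q hqu).2, (eII s hs).1, (eII s hs).2]
    exact h12 q hq hqu n1 n2 s hs m1 m2
  · intro q hq hqu n1 n2 x h1 h2 h3
    rw [(eI q hqu).1, (eI q hqu).2, (eR x h1 h2 h3).1]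
    intro e
    have h5 := h13 q hq hqu n1 n2 x h1 h2 h3 (e ▸ (key x h1 h2 h3).1)
    exact ⟨h5.1, h5.2.1⟩
  · intro s hs m1 m2 x h1 h2 h3
    rw [(eII s hs).1, (eII s hs).2, (eR x h1 h2 h3).1]
    obtain ⟨k1, -⟩ := key x h1 h2 h3
    have h5 := h23 s hs m1 m2 x h1 h2 h3
    rintro (e | e)
    · rw [e] at k1 ⊢
      exact h5.1 k1
    · rw [e] at k1 ⊢
      exact h5.2 k1
  · intro x h1 h2 h3
    rw [(eR x h1 h2 h3).1]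
    intro e
    have h5 := h03 x h1 h2 h3 (cc x) e (key x h1 h2 h3).1
    exact ⟨h5.1, h5.2.1⟩
  · intro x h1 h2 h3 y k1 k2 k3
    rw [(eR x h1 h2 h3).1, (eR y k1 k2 k3).1]
    intro e e'
    exact hrow (cc x) x h1 h2 h3 (key x h1 h2 h3).1 y k1 k2 k3 (e ▸ (key y k1 k2 k3).1)
      (by rw [e', e])
  · intro x h1 h2 h3
    rw [(eR x h1 h2 h3).2]
    intro e
    exact hLv x h1 h2 h3 _ (key x h1 h2 h3).1 (e ▸ (key x h1 h2 h3).2.2.2.2)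
  · intro x h1 h2 h3 y k1 k2 k3
    rw [(eR x h1 h2 h3).2, (eR y k1 k2 k3).2]
    exact hgg x ((hmR x).mpr ⟨h1, h2, h3⟩) y ((hmR y).mpr ⟨k1, k2, k3⟩)
  · intro q hq hqu n1 n2 x h1 h2 h3
    rw [(eI q hqu).1, (eI q hqu).2, (eR x h1 h2 h3).1, (eR x h1 h2 h3).2, pl x h1 h2 h3]
    intro e
    rw [e]
    exact (h13 q hq hqu n1 n2 x h1 h2 h3 (e ▸ (key x h1 h2 h3).1)).2.2
  · intro x h1 h2 h3
    rw [(eR x h1 h2 h3).1, (eR x h1 h2 h3).2, pl x h1 h2 h3]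
    intro e
    exact (h03 x h1 h2 h3 (cc x) e (key x h1 h2 h3).1).2.2
  · intro x h1 h2 h3 y k1 k2 k3
    rw [(eR x h1 h2 h3).1, (eR x h1 h2 h3).2, pl x h1 h2 h3, (eR y k1 k2 k3).1,
      (eR y k1 k2 k3).2, pl y k1 k2 k3]
    intro e e'
    have ky := (key y k1 k2 k3).1
    rw [← e] at e' ky
    exact hrow (cc x) x h1 h2 h3 (key x h1 h2 h3).1 y k1 k2 k3 ky
      (hinj (cc x) x h1 h2 h3 (key x h1 h2 h3).1 y k1 k2 k3 ky e')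

end Pool.Agent.Helper38.SC
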