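import Mathlib

/-!
# Balanced allocation of rows to points, with classes
-/

set_option autoImplicit false

namespace Pool.Agent.Helper38.SC

variable {X K : Type} [Fintype X] [DecidableEq X] [Fintype K] [DecidableEq K]

/-- The number of rows owned by `x`. -/
def load (o : K → X) (x : X) : ℕ := (Finset.univ.filter (fun k => o k = x)).card

/-- One step: `z` owns a row through `z'`. -/
def Step (inc : K → Finset X) (o : K → X) (z z' : X) : Prop := ∃ k, o k = z ∧ z' ∈ inc k

/-- Paths of length `n`. -/
def Reach (inc : K → Finset X) (o : K → X) : ℕ → X → X → Prop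
  | 0, z, y => z = y
  | n + 1, z, y => ∃ z', Step inc o z z' ∧ Reach inc o n z' y

theorem load_update_to {o : K → X} {k : K} {z z' : X} (hk : o k = z) (hne : z ≠ z') :
    load (Function.update o k z') z' = load o z' + 1 := by
  have h1 : Finset.univ.filter (fun j => Function.update o k z' j = z') =
      insert k (Finset.univ.filter (fun j => o j = z')) := by
    ext j
    rw [Finset.mem_insert, Finset.mem_filter, Finset.mem_filter]
    by_cases h : j = k
    · subst h
      simp
    · rw [Function.update_of_ne h]
      simp [h]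
  rw [load, h1, Finset.card_insert_of_notMem]
  · rfl
  · rw [Finset.mem_filter]
    rintro ⟨-, h⟩
    exact hne (hk.symm.trans h)

theorem load_update_from {o : K → X} {k : K} {z z' : X} (hk : o k = z) (hne : z ≠ z') :
    load (Function.update o k z') z + 1 = load o z := by
  have h1 : Finset.univ.filter (fun j => Function.update o k z' j = z) =
      (Finset.univ.filter (fun j => o j = z)).erase k := by
    ext j
    rw [Finset.mem_erase, Finset.mem_filter, Finset.mem_filter]
    by_cases h : j = k
    · subst h
      simp [hne.symm]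
    · rw [Function.update_of_ne h]
      simp [h]
  have h2 : k ∈ Finset.univ.filter (fun j => o j = z) := by simp [hk]
  rw [load, h1, Finset.card_erase_of_mem h2, load]
  have h3 := Finset.card_pos.mpr ⟨k, h2⟩
  omega

theorem load_update_other {o : K → X} {k : K} {z z' y : X} (hk : o k = z) (h1 : y ≠ z)
    (h2 : y ≠ z') : load (Function.update o k z') y = load o y := by
  have h3 : Finset.univ.filter (fun j => Function.update o k z' j = y) =
      Finset.univ.filter (fun j => o j = y) := by
    ext j
    rw [Finset.mem_filter, Finset.mem_filter]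
    by_cases h : j = k
    · subst h
      simp [hk, h1.symm, h2.symm]
    · rw [Function.update_of_ne h]
  rw [load, h3, load]

/-- The energy. -/
def energy (o : K → X) : ℕ := ∑ x, load o x ^ 2

theorem energy_update {o : K → X} {k : K} {z z' : X} (hk : o k = z) (hne : z ≠ z') :
    energy (Function.update o k z') + 2 * load o z = energy o + 2 * load o z' + 2 := by
  have h1 : ∀ (f : X → ℕ), ∑ x, f x = f z + (f z' + ∑ x ∈ (Finset.univ.erase z).erase z', f x) := by
    intro f
    rw [Finset.add_sum_erase _ f (Finset.mem_erase.mpr ⟨hne.symm, Finset.mem_univ _⟩),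
      Finset.add_sum_erase _ f (Finset.mem_univ _)]
  rw [energy, energy, h1, h1 (fun x => load o x ^ 2)]
  have h2 : ∑ x ∈ (Finset.univ.erase z).erase z', load (Function.update o k z') x ^ 2 =
      ∑ x ∈ (Finset.univ.erase z).erase z', load o x ^ 2 := by
    apply Finset.sum_congr rfl
    intro x hx
    rw [Finset.mem_erase, Finset.mem_erase] at hx
    rw [load_update_other hk hx.2.1 hx.1]
  rw [h2, load_update_to hk hne]
  have h3 := load_update_from hk hne
  obtain ⟨a, ha⟩ : ∃ a, load (Function.update o k z') z = a := ⟨_, rfl⟩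
  rw [ha] at h3 ⊢
  rw [← h3]
  ring

/-- Allocations with the smallest energy. -/
def IsMin (inc : K → Finset X) (o : K → X) : Prop :=
  (∀ k, o k ∈ inc k) ∧ ∀ o' : K → X, (∀ k, o' k ∈ inc k) → energy o ≤ energy o'

theorem reach_update {inc : K → Finset X} {o : K → X} {k : K} {z z' : X} (hk : o k = z) :
    ∀ (n : ℕ) (a y : X), Reach inc o n a y →
      (∃ m ≤ n, Reach inc o m z y) ∨ Reach inc (Function.update o k z') n a y := by
  intro n
  induction n with
  | zero => exact fun a y h => Or.inr h
  | succ n ih =>
    intro a y h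
    obtain ⟨w, ⟨k2, hk2, hw⟩, h2⟩ := h
    by_cases haz : a = z
    · exact Or.inl ⟨n + 1, le_rfl, ⟨w, ⟨k2, hk2.trans haz, hw⟩, h2⟩⟩
    · rcases ih w y h2 with ⟨m, hm, h3⟩ | h3
      · exact Or.inl ⟨m, by omega, h3⟩
      · refine Or.inr ⟨w, ⟨k2, ?_, hw⟩, h3⟩
        have hne : k2 ≠ k := fun e => haz (by rw [← hk2, e, hk])
        rw [Function.update_of_ne hne, hk2]

theorem load_le_of_reach {inc : K → Finset X} :
    ∀ (n : ℕ) (o : K → X), IsMin inc o → ∀ z y, Reach inc o n z y → load o z ≤ load o y + 1 := by
  intro n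
  induction n using Nat.strong_induction_on with
  | _ n ih =>
    intro o ho z y h
    match n, ih, h with
    | 0, _, h =>
      have h' : z = y := h
      rw [h']
      omega
    | n + 1, ih, h =>
      obtain ⟨z', ⟨k, hk, hz'⟩, h2⟩ := h
      by_cases hne : z = z'
      · rw [hne]
        exact ih n (by omega) o ho z' y h2
      by_contra hcon
      push Not at hcon
      have hE := energy_update hk hne
      have hmem : ∀ j, Function.update o k z' j ∈ inc j := by
        intro j
        by_cases h : j = k
        · subst h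
          rw [Function.update_self]
          exact hz'
        · rw [Function.update_of_ne h]
          exact ho.1 j
      have h3 := ho.2 _ hmem
      have h4 := ih n (by omega) o ho z' y h2
      have h5 : load o z' + 1 = load o z := by omega
      have ho' : IsMin inc (Function.update o k z') := by
        refine ⟨hmem, fun o' ho'' => ?_⟩
        have h6 := ho.2 o' ho''
        omega
      rcases reach_update (z' := z') hk n z' y h2 with ⟨m, hm, h6⟩ | h6
      · have h7 := ih m (by omega) o ho z y h6
        omega
      · have h7 := ih n (by omega) _ ho' z' y h6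
        rw [load_update_to hk hne] at h7
        have hy1 : y ≠ z := fun e => by
          rw [e] at hcon
          omega
        have hy2 : y ≠ z' := fun e => by
          rw [e] at hcon
          omega
        rw [load_update_other hk hy1 hy2] at h7
        omega

theorem reach_trans {inc : K → Finset X} {o : K → X} {y w : X} :
    ∀ (n : ℕ) (z : X), Reach inc o n z y → ∀ m, Reach inc o m y w → Reach inc o (n + m) z w := by
  intro n
  induction n with
  | zero =>
    intro z h m h2
    have h' : z = y := h
    rw [h', Nat.zero_add]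
    exact h2
  | succ n ih =>
    intro z h m h2
    obtain ⟨z', h3, h4⟩ := h
    have h5 := ih z' h4 m h2
    have e : n + 1 + m = n + m + 1 := by omega
    rw [e]
    exact ⟨z', h3, h5⟩

/-- **Balanced allocation.** -/
theorem alloc (inc : K → Finset X) (hne : ∀ k, (inc k).Nonempty) (m : X → K)
    (hm : Function.Injective m) (hmi : ∀ x, x ∈ inc (m x)) :
    ∃ (o : K → X) (cls : X → ℕ), (∀ k, o k ∈ inc k) ∧ (∀ k, ∀ y ∈ inc k, cls (o k) ≤ cls y) ∧
      (∀ x, 1 ≤ cls x ∧ cls x ≤ load o x ∧ load o x ≤ cls x + 1) := by
  classical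
  -- a minimal allocation
  obtain ⟨o, ho⟩ : ∃ o, IsMin inc o := by
    choose f hf using hne
    obtain ⟨o, ho1, ho2⟩ := Finset.exists_min_image
      (Finset.univ.filter (fun o : K → X => ∀ k, o k ∈ inc k)) energy
      ⟨f, by simp [hf]⟩
    rw [Finset.mem_filter] at ho1
    exact ⟨o, ho1.2, fun o' ho' => ho2 o' (by simp [ho'])⟩
  have hex : ∀ x : X, ∃ a, ∃ y, (∃ n, Reach inc o n x y) ∧ load o y = a :=
    fun x => ⟨load o x, x, ⟨0, rfl⟩, rfl⟩
  have hcls : ∀ x : X, ∃ a, (∃ y, (∃ n, Reach inc o n x y) ∧ load o y = a) ∧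
      ∀ b, (∃ y, (∃ n, Reach inc o n x y) ∧ load o y = b) → a ≤ b := fun x =>
    ⟨Nat.find (hex x), Nat.find_spec (hex x), fun b hb => Nat.find_min' (hex x) hb⟩
  choose cls hc1 hc2 using hcls
  have hle : ∀ x, cls x ≤ load o x := fun x => hc2 x _ ⟨x, ⟨0, rfl⟩, rfl⟩
  have hup : ∀ x, load o x ≤ cls x + 1 := by
    intro x
    obtain ⟨y, ⟨n, hn⟩, hy⟩ := hc1 x
    rw [← hy]
    exact load_le_of_reach n o ho x y hn
  have hmono : ∀ k, ∀ y ∈ inc k, cls (o k) ≤ cls y := by
    intro k y hy
    obtain ⟨w, ⟨n, hn⟩, hw⟩ := hc1 y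
    exact hc2 (o k) _ ⟨w, ⟨n + 1, ⟨y, ⟨k, rfl, hy⟩, hn⟩⟩, hw⟩
  refine ⟨o, cls, ho.1, hmono, fun x => ⟨?_, hle x, hup x⟩⟩
  -- no point of class zero
  by_contra hcon
  have hx0 : cls x = 0 := by omega
  set S : Finset X := Finset.univ.filter (fun y => cls y = 0) with hS
  have hmS : ∀ y, y ∈ S ↔ cls y = 0 := fun y => by simp [hS]
  have h1 : ∀ y ∈ S, load o y ≤ 1 := fun y hy => by
    have h2 := hup y
    rw [(hmS y).mp hy] at h2
    omega
  obtain ⟨y0, ⟨n0, hn0⟩, hy0⟩ := hc1 x
  rw [hx0] at hy0
  have hy0S : y0 ∈ S := (hmS y0).mpr (by have := hle y0; omega)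
  -- rows through points of `S` are owned in `S`
  have h2 : ∀ y ∈ S, o (m y) ∈ S := by
    intro y hy
    have h3 := hmono (m y) y (hmi y)
    rw [(hmS y).mp hy] at h3
    exact (hmS _).mpr (by omega)
  have h3 : S.card ≤ ∑ y ∈ S, load o y := by
    have h4 : ∑ y ∈ S, load o y = (S.biUnion (fun y => Finset.univ.filter (fun k => o k = y))).card := by
      rw [Finset.card_biUnion]
      · rfl
      · intro a _ b _ hab
        rw [Function.onFun, Finset.disjoint_left]
        intro k hk hk'
        rw [Finset.mem_filter] at hk hk'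
        exact hab (hk.2.symm.trans hk'.2)
    rw [h4]
    apply Finset.card_le_card_of_injOn m
    · intro y hy
      rw [Finset.mem_coe, Finset.mem_biUnion]
      exact ⟨o (m y), h2 y hy, by simp⟩
    · exact fun a _ b _ e => hm e
  have h5 : ∑ y ∈ S, load o y < ∑ y ∈ S, 1 := by
    apply Finset.sum_lt_sum h1
    exact ⟨y0, hy0S, by omega⟩
  rw [Finset.sum_const, smul_eq_mul, mul_one] at h5
  omega

end Pool.Agent.Helper38.SC
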