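import Pool.Agent.Helper38.Thick.Assem

/-!
# Assembly of the rank four data, general form

The points of `u` use two lines to points outside `u`, the points of `Rp` use two lines to points
of `u`, all other points use one line to `u` and one line skew to `u`.
-/

set_option autoImplicit false
set_option linter.unusedSectionVars false

namespace Pool.Agent.Helper38.SC

open Pool.Agent.Helper28.BPack Pool.Agent.Helper61.Motz Pool.Agent.Helper38.Thick

variable {L : Type} [Lattice L] [BoundedOrder L] [Finite L] [IsUpperModularLattice L]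

theorem crit4_of_types {A Rp : Finset L} {u b1 b2 r1 r2 : L} {c d : L → L}
    (hA : ∀ a ∈ A, IsAtom a) (hu : rk u = 2)
    (hb1 : b1 ∈ A) (hb2 : b2 ∈ A) (hb12 : b1 ⊔ b2 = u)
    (hr1 : r1 ∈ Rp) (hr2 : r2 ∈ Rp) (h4 : rk (u ⊔ r1 ⊔ r2) = 4)
    (hRp : ∀ x ∈ Rp, x ∈ A ∧ ¬ x ≤ u)
    (hRP : ∀ x ∈ Rp, ∀ y ∈ Rp, y ≤ x ⊔ u → x = y)
    (hI : ∀ q ∈ A, q ≤ u → q ≠ b1 → q ≠ b2 → c q ∈ A ∧ d q ∈ A ∧ rk (u ⊔ c q ⊔ d q) = 4)
    (hII : ∀ q ∈ Rp, q ≠ r1 → q ≠ r2 → c q ∈ A ∧ c q ≤ u ∧ d q ∈ A ∧ d q ≤ u ∧ c q ≠ d q)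
    (hIII : ∀ q ∈ A, ¬ q ≤ u → q ∉ Rp → c q ∈ A ∧ c q ≤ u ∧ d q ∈ A ∧ rk (q ⊔ c q ⊔ d q) = 3 ∧
      ¬ u ≤ q ⊔ c q ⊔ d q)
    -- rows of the points of `u` against the rows of `Rp`
    (h12 : ∀ q ∈ A, q ≤ u → q ≠ b1 → q ≠ b2 → ∀ s ∈ Rp, s ≠ r1 → s ≠ r2 → (c s = q ∨ d s = q) →
      ¬ s ≤ q ⊔ c q ∧ ¬ s ≤ q ⊔ d q)
    -- rows of the points of `u` against the rows of the users
    (h13 : ∀ q ∈ A, q ≤ u → q ≠ b1 → q ≠ b2 → ∀ x ∈ A, ¬ x ≤ u → x ∉ Rp → c x = q →
      ¬ x ≤ q ⊔ c q ∧ ¬ x ≤ q ⊔ d q)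
    -- rows of `Rp` against the rows of the users
    (h23 : ∀ s ∈ Rp, s ≠ r1 → s ≠ r2 → ∀ x ∈ A, ¬ x ≤ u → x ∉ Rp → (c x = c s ∨ c x = d s) →
      ¬ s ≤ x ⊔ c x)
    -- rows of the basis against the rows of the users
    (h03 : ∀ x ∈ A, ¬ x ≤ u → x ∉ Rp → (c x = b1 ∨ c x = b2) →
      ¬ r1 ≤ x ⊔ c x ∧ ¬ r2 ≤ x ⊔ c x)
    -- rows of the users
    (h33 : ∀ x ∈ A, ¬ x ≤ u → x ∉ Rp → ∀ y ∈ A, ¬ y ≤ u → y ∉ Rp → c x = c y →
      x ⊔ c x = y ⊔ c y → x = y)
    -- second lines of the users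
    (hgv : ∀ x ∈ A, ¬ x ≤ u → x ∉ Rp → x ⊔ d x ≠ r1 ⊔ r2)
    (hg : ∀ x ∈ A, ¬ x ≤ u → x ∉ Rp → ∀ y ∈ A, ¬ y ≤ u → y ∉ Rp → x ⊔ d x = y ⊔ d y → x = y)
    -- planes of the users
    (hH1 : ∀ q ∈ A, q ≤ u → q ≠ b1 → q ≠ b2 → ∀ x ∈ A, ¬ x ≤ u → x ∉ Rp → c x = q →
      x ⊔ c x ⊔ d x ≠ q ⊔ c q ⊔ d q)
    (hH0 : ∀ x ∈ A, ¬ x ≤ u → x ∉ Rp → (c x = b1 ∨ c x = b2) →
      x ⊔ c x ⊔ d x ≠ c x ⊔ (r1 ⊔ r2))
    (hH3 : ∀ x ∈ A, ¬ x ≤ u → x ∉ Rp → ∀ y ∈ A, ¬ y ≤ u → y ∉ Rp → c x = c y →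
      x ⊔ c x ⊔ d x = y ⊔ c y ⊔ d y → x = y) : Crit4 A := by
  classical
  have hr1A := (hRp r1 hr1).1
  have hr2A := (hRp r2 hr2).1
  have hr1u := (hRp r1 hr1).2
  have hr2u := (hRp r2 hr2).2
  have hbu1 : b1 ≤ u := hb12 ▸ le_sup_left
  have hbu2 : b2 ≤ u := hb12 ▸ le_sup_right
  have hb12' : b1 ≠ b2 := by
    intro h
    rw [h, sup_idem] at hb12
    rw [← hb12, rk_atom (hA b2 hb2)] at hu
    omega
  have hr12 : r1 ≠ r2 := by
    rintro rfl
    have h1 := rk_sup_atom_le (x := u) (hA r1 hr1A)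
    rw [sup_assoc, sup_idem] at h4
    omega
  have hvrk : rk (r1 ⊔ r2) = 2 := rk_line (hA r1 hr1A) (hA r2 hr2A) hr12
  -- two points of `u`
  have two : ∀ a ∈ A, a ≤ u → ∀ a' ∈ A, a' ≤ u → a ≠ a' → ∀ p, a ≤ p → a' ≤ p → u ≤ p := by
    intro a ha hau a' ha' hau' hne p h1 h2
    rw [← line_of (hA a ha) (hA a' ha') hne hau hau' hu]
    exact sup_le h1 h2
  -- a line over a point outside `u` is not over `u`
  have nou : ∀ y, ¬ y ≤ u → ∀ l, rk l = 2 → y ≤ l → ¬ u ≤ l := by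
    intro y hy l hl hyl hul
    have h1 : u = l := eq_of_le_of_rk hul (by omega)
    exact hy (h1 ▸ hyl)
  -- rows
  have rrk : ∀ a ∈ A, a ≤ u → ∀ y ∈ A, ¬ y ≤ u → rk (a ⊔ y) = 2 := fun a ha hau y hy hyu =>
    rk_line (hA a ha) (hA y hy) (fun h => hyu (h ▸ hau))
  have rcol : ∀ a ∈ A, a ≤ u → ∀ y ∈ A, ¬ y ≤ u → ∀ a' ∈ A, a' ≤ u → a' ≤ a ⊔ y → a' = a := by
    intro a ha hau y hy hyu a' ha' hau' h
    by_contra hne
    exact nou y hyu _ (rrk a ha hau y hy hyu) le_sup_right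
      (two a' ha' hau' a ha hau hne _ h le_sup_left)
  have rne : ∀ a ∈ A, a ≤ u → ∀ y ∈ A, ¬ y ≤ u → a ⊔ y ≠ u := fun a ha hau y hy hyu h =>
    hyu (h ▸ le_sup_right)
  -- a plane over `u` does not contain both
  have huv : ∀ p, rk p = 3 → u ≤ p → r1 ≤ p → r2 ≤ p → False := by
    intro p hp h1 h2 h3
    have h5 := rk_mono (sup_le (sup_le h1 h2) h3 : u ⊔ r1 ⊔ r2 ≤ p)
    omega
  have uv : ∀ a ∈ A, a ≤ u → ¬ a ≤ r1 ⊔ r2 := by
    intro a ha hau hav
    have e1 : rk (a ⊔ r1) = 2 := rrk a ha hau r1 hr1A hr1u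
    have e2 : a ⊔ r1 = r1 ⊔ r2 := line_of (hA a ha) (hA r1 hr1A) (fun h => hr1u (h ▸ hau)) hav
      le_sup_left hvrk
    have e3 : r2 ≤ u ⊔ r1 := (le_sup_right : r2 ≤ r1 ⊔ r2).trans
      (e2 ▸ sup_le (hau.trans le_sup_left) le_sup_right)
    have h1 := rk_sup_atom_le (x := u) (hA r1 hr1A)
    rw [sup_eq_left.mpr e3] at h4
    omega
  -- points of type I
  have cI : ∀ q ∈ A, q ≤ u → q ≠ b1 → q ≠ b2 → c q ∈ A ∧ ¬ c q ≤ u ∧ d q ∈ A ∧ ¬ d q ≤ u ∧
      q ⊔ c q ≠ q ⊔ d q ∧ rk (q ⊔ c q ⊔ d q) = 3 ∧ ¬ u ≤ q ⊔ c q ⊔ d q := by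
    intro q hq hqu n1 n2
    obtain ⟨h1, h2, h3⟩ := hI q hq hqu n1 n2
    have hc' := rk_sup_atom_le (x := u) (hA _ h1)
    have hd' : ¬ d q ≤ u ⊔ c q := by
      intro h
      rw [sup_eq_left.mpr h] at h3
      omega
    have hcu : ¬ c q ≤ u := by
      intro h
      rw [sup_eq_left.mpr h] at h3
      have h5 := rk_sup_atom_le (x := u) (hA _ h2)
      omega
    have hle : q ⊔ c q ≤ u ⊔ c q := sup_le_sup_right hqu _
    have hdq : ¬ d q ≤ q ⊔ c q := fun h => hd' (h.trans hle)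
    refine ⟨h1, hcu, h2, fun h => hd' (h.trans le_sup_left), ?_, ?_, ?_⟩
    · intro h
      exact hdq (h ▸ le_sup_right)
    · rw [rk_sup_atom (hA _ h2) hdq, rrk q hq hqu _ h1 hcu]
    · intro h
      have h6 : u ⊔ c q ⊔ d q ≤ q ⊔ c q ⊔ d q :=
        sup_le (sup_le h (le_sup_right.trans le_sup_left)) le_sup_right
      have h7 := rk_mono h6
      have h8 : rk (q ⊔ c q ⊔ d q) = 3 := by
        rw [rk_sup_atom (hA _ h2) hdq, rrk q hq hqu _ h1 hcu]
      omega
  -- points of type III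
  have cIII : ∀ q ∈ A, ¬ q ≤ u → q ∉ Rp → rk (q ⊔ d q) = 2 ∧ (∀ a ∈ A, a ≤ u →
      a ≤ q ⊔ c q ⊔ d q → a = c q) ∧ (∀ a ∈ A, a ≤ u → ¬ a ≤ q ⊔ d q) := by
    intro q hq hqu hqR
    obtain ⟨h1, h2, h3, h5, h6⟩ := hIII q hq hqu hqR
    have hline : rk (q ⊔ c q) = 2 := by
      rw [sup_comm]
      exact rrk _ h1 h2 q hq hqu
    have hdq : q ≠ d q := by
      intro h
      have e : q ⊔ c q ⊔ d q = q ⊔ c q := sup_eq_left.mpr (h ▸ le_sup_left)
      rw [e, hline] at h5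
      omega
    have h7 : rk (q ⊔ d q) = 2 := rk_line (hA q hq) (hA _ h3) hdq
    have h8 : ∀ a ∈ A, a ≤ u → a ≤ q ⊔ c q ⊔ d q → a = c q := by
      intro a ha hau hal
      by_contra hne
      exact h6 (two a ha hau _ h1 h2 hne _ hal (le_sup_right.trans le_sup_left))
    refine ⟨h7, h8, ?_⟩
    intro a ha hau hal
    have h9 : a = c q := h8 a ha hau (hal.trans (sup_le_sup_right le_sup_left _))
    have h10 : a ⊔ q = q ⊔ d q := line_of (hA a ha) (hA q hq) (fun h => hqu (h ▸ hau)) hal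
      le_sup_left h7
    have h11 : q ⊔ c q = q ⊔ d q := by rw [← h9, sup_comm, h10]
    have e : q ⊔ c q ⊔ d q = q ⊔ c q := sup_eq_left.mpr (h11 ▸ le_sup_right)
    rw [e, hline] at h5
    omega
  have cne : ∀ q, (∀ i, q ≠ bas b1 b2 r1 r2 i) → q ≠ b1 ∧ q ≠ b2 ∧ q ≠ r1 ∧ q ≠ r2 := fun q h =>
    ⟨h 0, h 1, h 2, h 3⟩
  -- the six lines of the basis against a row
  have brow : ∀ a ∈ A, a ≤ u → ∀ y ∈ A, ¬ y ≤ u →
      (∀ b s, (b = b1 ∨ b = b2) → (s = r1 ∨ s = r2) → a = b → s ≤ a ⊔ y → y ≤ b ⊔ s → False) →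
      ∀ i j, i ≠ j → a ⊔ y ≠ bas b1 b2 r1 r2 i ⊔ bas b1 b2 r1 r2 j := by
    intro a ha hau y hy hyu hno i j hij e
    rcases bas_line b1 b2 r1 r2 i j hij with h | h | ⟨b, s, hb, hs, h⟩
    · rw [h, hb12] at e
      exact rne a ha hau y hy hyu e
    · rw [h] at e
      exact uv a ha hau (e ▸ le_sup_left)
    · rw [h] at e
      have hbA : b ∈ A ∧ b ≤ u := by
        rcases hb with rfl | rfl
        exacts [⟨hb1, hbu1⟩, ⟨hb2, hbu2⟩]
      have hab : b = a := rcol a ha hau y hy hyu b hbA.1 hbA.2 (e ▸ le_sup_left)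
      exact hno b s hb hs hab.symm (e ▸ le_sup_right) (e ▸ le_sup_right)
  -- type II
  have cII : ∀ q ∈ Rp, q ≠ r1 → q ≠ r2 → rk (q ⊔ c q ⊔ d q) = 3 ∧ q ⊔ c q ⊔ d q = q ⊔ u := by
    intro q hq n1 n2
    obtain ⟨h1, h2, h3, h5, h6⟩ := hII q hq n1 n2
    have e : q ⊔ c q ⊔ d q = q ⊔ u := by
      rw [sup_assoc, line_of (hA _ h1) (hA _ h3) h6 h2 h5 hu]
    rw [e]
    refine ⟨?_, rfl⟩
    rw [sup_comm, rk_sup_atom (hA q (hRp q hq).1) (hRp q hq).2, hu]
  have rkII : ∀ q ∈ A, ¬ q ≤ u → rk (q ⊔ u) = 3 := fun q hq hqu => by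
    rw [sup_comm, rk_sup_atom (hA q hq) hqu, hu]
  -- row comparison
  have req : ∀ a ∈ A, a ≤ u → ∀ y ∈ A, ¬ y ≤ u → ∀ a' ∈ A, a' ≤ u → ∀ y' ∈ A, ¬ y' ≤ u →
      a ⊔ y = a' ⊔ y' → a = a' := by
    intro a ha hau y hy hyu a' ha' hau' y' hy' hyu' e
    exact rcol a' ha' hau' y' hy' hyu' a ha hau (e ▸ le_sup_left)
  refine ⟨bas b1 b2 r1 r2, c, d, ?_, ?_, ?_, ?_, ?_, ?_, ?_, ?_, ?_, ?_⟩
  · intro i
    fin_cases i
    exacts [hb1, hb2, hr1A, hr2A]
  · have h1 : (Finset.univ : Finset (Fin 4)) = insert 0 (insert 1 (insert 2 {3})) := by decide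
    rw [h1, Finset.sup_insert, Finset.sup_insert, Finset.sup_insert, Finset.sup_singleton]
    change rk (b1 ⊔ (b2 ⊔ (r1 ⊔ r2))) = 4
    rw [← h4, ← hb12, sup_assoc, sup_assoc]
  · -- the planes have rank three
    intro q hq hne
    obtain ⟨n1, n2, n3, n4⟩ := cne q hne
    by_cases hqu : q ≤ u
    · have h := cI q hq hqu n1 n2
      exact ⟨h.1, h.2.2.1, h.2.2.2.2.2.1⟩
    · by_cases hqR : q ∈ Rp
      · have h := hII q hqR n3 n4
        exact ⟨h.1, h.2.2.1, (cII q hqR n3 n4).1⟩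
      · have h := hIII q hq hqu hqR
        exact ⟨h.1, h.2.2.1, h.2.2.2.1⟩
  · -- the first lines
    intro q hq hne q' hq' hne' e
    obtain ⟨n1, n2, n3, n4⟩ := cne q hne
    obtain ⟨m1, m2, m3, m4⟩ := cne q' hne'
    by_cases hqu : q ≤ u
    · have h := cI q hq hqu n1 n2
      by_cases hqu' : q' ≤ u
      · have h' := cI q' hq' hqu' m1 m2
        exact req q hq hqu _ h.1 h.2.1 q' hq' hqu' _ h'.1 h'.2.1 e
      · exfalso
        have e' : q ⊔ c q = c q' ⊔ q' := by rw [e, sup_comm]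
        by_cases hqR' : q' ∈ Rp
        · have h' := hII q' hqR' m3 m4
          have h5 := req q hq hqu _ h.1 h.2.1 _ h'.1 h'.2.1 q' hq' hqu' e'
          exact (h12 q hq hqu n1 n2 q' hqR' m3 m4 (Or.inl h5.symm)).1 (e' ▸ le_sup_right)
        · have h' := hIII q' hq' hqu' hqR'
          have h5 := req q hq hqu _ h.1 h.2.1 _ h'.1 h'.2.1 q' hq' hqu' e'
          exact (h13 q hq hqu n1 n2 q' hq' hqu' hqR' h5.symm).1 (e' ▸ le_sup_right)
    · by_cases hqR : q ∈ Rp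
      · have h := hII q hqR n3 n4
        have ec : q ⊔ c q = c q ⊔ q := sup_comm _ _
        by_cases hqu' : q' ≤ u
        · exfalso
          have h' := cI q' hq' hqu' m1 m2
          have e' : q' ⊔ c q' = c q ⊔ q := by rw [← e, sup_comm]
          have h5 := req q' hq' hqu' _ h'.1 h'.2.1 _ h.1 h.2.1 q hq hqu e'
          exact (h12 q' hq' hqu' m1 m2 q hqR n3 n4 (Or.inl h5.symm)).1 (e' ▸ le_sup_right)
        · have hle : q' ≤ q ⊔ u := (le_sup_left : q' ≤ q' ⊔ c q').trans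
            (e ▸ sup_le_sup_left h.2.1 q)
          by_cases hqR' : q' ∈ Rp
          · exact hRP q hqR q' hqR' hle
          · exfalso
            have h' := hIII q' hq' hqu' hqR'
            have h5 := req _ h.1 h.2.1 q hq hqu _ h'.1 h'.2.1 q' hq' hqu'
              (by rw [sup_comm, e, sup_comm])
            exact h23 q hqR n3 n4 q' hq' hqu' hqR' (Or.inl h5.symm) (e ▸ le_sup_left)
      · have h := hIII q hq hqu hqR
        by_cases hqu' : q' ≤ u
        · exfalso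
          have h' := cI q' hq' hqu' m1 m2
          have e' : q' ⊔ c q' = c q ⊔ q := by rw [← e, sup_comm]
          have h5 := req q' hq' hqu' _ h'.1 h'.2.1 _ h.1 h.2.1 q hq hqu e'
          exact (h13 q' hq' hqu' m1 m2 q hq hqu hqR h5.symm).1 (e' ▸ le_sup_right)
        · by_cases hqR' : q' ∈ Rp
          · exfalso
            have h' := hII q' hqR' m3 m4
            have h5 := req _ h.1 h.2.1 q hq hqu _ h'.1 h'.2.1 q' hq' hqu'
              (by rw [sup_comm, e, sup_comm])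
            exact h23 q' hqR' m3 m4 q hq hqu hqR (Or.inl h5) (e ▸ le_sup_left)
          · have h' := hIII q' hq' hqu' hqR'
            have h5 := req _ h.1 h.2.1 q hq hqu _ h'.1 h'.2.1 q' hq' hqu'
              (by rw [sup_comm, e, sup_comm])
            exact h33 q hq hqu hqR q' hq' hqu' hqR' h5 e
  · -- the second lines
    intro q hq hne q' hq' hne' e
    obtain ⟨n1, n2, n3, n4⟩ := cne q hne
    obtain ⟨m1, m2, m3, m4⟩ := cne q' hne'
    by_cases hqu : q ≤ u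
    · have h := cI q hq hqu n1 n2
      by_cases hqu' : q' ≤ u
      · have h' := cI q' hq' hqu' m1 m2
        exact req q hq hqu _ h.2.2.1 h.2.2.2.1 q' hq' hqu' _ h'.2.2.1 h'.2.2.2.1 e
      · exfalso
        by_cases hqR' : q' ∈ Rp
        · have h' := hII q' hqR' m3 m4
          have e' : q ⊔ d q = d q' ⊔ q' := by rw [e, sup_comm]
          have h5 := req q hq hqu _ h.2.2.1 h.2.2.2.1 _ h'.2.2.1 h'.2.2.2.1 q' hq' hqu' e'
          exact (h12 q hq hqu n1 n2 q' hqR' m3 m4 (Or.inr h5.symm)).2 (e' ▸ le_sup_right)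
        · exact (cIII q' hq' hqu' hqR').2.2 q hq hqu (e ▸ le_sup_left)
    · by_cases hqR : q ∈ Rp
      · have h := hII q hqR n3 n4
        by_cases hqu' : q' ≤ u
        · exfalso
          have h' := cI q' hq' hqu' m1 m2
          have e' : q' ⊔ d q' = d q ⊔ q := by rw [← e, sup_comm]
          have h5 := req q' hq' hqu' _ h'.2.2.1 h'.2.2.2.1 _ h.2.2.1 h.2.2.2.1 q hq hqu e'
          exact (h12 q' hq' hqu' m1 m2 q hqR n3 n4 (Or.inr h5.symm)).2 (e' ▸ le_sup_right)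
        · by_cases hqR' : q' ∈ Rp
          · have hle : q' ≤ q ⊔ u := (le_sup_left : q' ≤ q' ⊔ d q').trans
              (e ▸ sup_le_sup_left h.2.2.2.1 q)
            exact hRP q hqR q' hqR' hle
          · exfalso
            exact (cIII q' hq' hqu' hqR').2.2 _ h.2.2.1 h.2.2.2.1 (e ▸ le_sup_right)
      · by_cases hqu' : q' ≤ u
        · exfalso
          exact (cIII q hq hqu hqR).2.2 q' hq' hqu' (e ▸ le_sup_left)
        · by_cases hqR' : q' ∈ Rp
          · exfalso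
            have h' := hII q' hqR' m3 m4
            exact (cIII q hq hqu hqR).2.2 _ h'.2.2.1 h'.2.2.2.1 (e ▸ le_sup_right)
          · exact hg q hq hqu hqR q' hq' hqu' hqR' e
  · -- first against second
    intro q hq hne q' hq' hne' e
    obtain ⟨n1, n2, n3, n4⟩ := cne q hne
    obtain ⟨m1, m2, m3, m4⟩ := cne q' hne'
    by_cases hqu : q ≤ u
    · have h := cI q hq hqu n1 n2
      by_cases hqu' : q' ≤ u
      · have h' := cI q' hq' hqu' m1 m2
        have h5 := req q hq hqu _ h.1 h.2.1 q' hq' hqu' _ h'.2.2.1 h'.2.2.2.1 e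
        subst h5
        exact h.2.2.2.2.1 e
      · by_cases hqR' : q' ∈ Rp
        · have h' := hII q' hqR' m3 m4
          have e' : q ⊔ c q = d q' ⊔ q' := by rw [e, sup_comm]
          have h5 := req q hq hqu _ h.1 h.2.1 _ h'.2.2.1 h'.2.2.2.1 q' hq' hqu' e'
          exact (h12 q hq hqu n1 n2 q' hqR' m3 m4 (Or.inr h5.symm)).1 (e' ▸ le_sup_right)
        · exact (cIII q' hq' hqu' hqR').2.2 q hq hqu (e ▸ le_sup_left)
    · by_cases hqR : q ∈ Rp
      · have h := hII q hqR n3 n4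
        by_cases hqu' : q' ≤ u
        · have h' := cI q' hq' hqu' m1 m2
          have e' : q' ⊔ d q' = c q ⊔ q := by rw [← e, sup_comm]
          have h5 := req q' hq' hqu' _ h'.2.2.1 h'.2.2.2.1 _ h.1 h.2.1 q hq hqu e'
          exact (h12 q' hq' hqu' m1 m2 q hqR n3 n4 (Or.inl h5.symm)).2 (e' ▸ le_sup_right)
        · by_cases hqR' : q' ∈ Rp
          · have h' := hII q' hqR' m3 m4
            have hle : q' ≤ q ⊔ u := (le_sup_left : q' ≤ q' ⊔ d q').trans
              (e ▸ sup_le_sup_left h.2.1 q)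
            have h6 := hRP q hqR q' hqR' hle
            subst h6
            have h5 := req _ h.1 h.2.1 q hq hqu _ h.2.2.1 h.2.2.2.1 q hq hqu
              (by rw [sup_comm, e, sup_comm])
            exact h.2.2.2.2 h5
          · exact (cIII q' hq' hqu' hqR').2.2 _ h.1 h.2.1 (e ▸ le_sup_right)
      · have h := hIII q hq hqu hqR
        by_cases hqu' : q' ≤ u
        · have h' := cI q' hq' hqu' m1 m2
          have e' : q' ⊔ d q' = c q ⊔ q := by rw [← e, sup_comm]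
          have h5 := req q' hq' hqu' _ h'.2.2.1 h'.2.2.2.1 _ h.1 h.2.1 q hq hqu e'
          exact (h13 q' hq' hqu' m1 m2 q hq hqu hqR h5.symm).2 (e' ▸ le_sup_right)
        · by_cases hqR' : q' ∈ Rp
          · have h' := hII q' hqR' m3 m4
            have h5 := req _ h.1 h.2.1 q hq hqu _ h'.2.2.1 h'.2.2.2.1 q' hq' hqu'
              (by rw [sup_comm, e, sup_comm])
            exact h23 q' hqR' m3 m4 q hq hqu hqR (Or.inr h5) (e ▸ le_sup_left)
          · exact (cIII q' hq' hqu' hqR').2.2 _ h.1 h.2.1 (e ▸ le_sup_right)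
  · -- first lines and the basis
    intro q hq hne i j hij
    obtain ⟨n1, n2, n3, n4⟩ := cne q hne
    by_cases hqu : q ≤ u
    · have h := cI q hq hqu n1 n2
      refine brow q hq hqu _ h.1 h.2.1 ?_ i j hij
      rintro b s (rfl | rfl) - h5
      exacts [fun _ _ => n1 h5, fun _ _ => n2 h5]
    · by_cases hqR : q ∈ Rp
      · have h := hII q hqR n3 n4
        rw [sup_comm q]
        refine brow _ h.1 h.2.1 q hq hqu ?_ i j hij
        rintro b s - hs - h5 -
        have h6 : s ≤ q ⊔ u := h5.trans (by rw [sup_comm]; exact sup_le_sup_left h.2.1 q)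
        rcases hs with rfl | rfl
        · exact n3 (hRP q hqR s hr1 h6)
        · exact n4 (hRP q hqR s hr2 h6)
      · have h := hIII q hq hqu hqR
        rw [sup_comm q]
        refine brow _ h.1 h.2.1 q hq hqu ?_ i j hij
        rintro b s hb hs h5 h6 -
        rw [sup_comm] at h6
        have h7 := h03 q hq hqu hqR (by rcases hb with rfl | rfl; exacts [Or.inl h5, Or.inr h5])
        rcases hs with rfl | rfl
        exacts [h7.1 h6, h7.2 h6]
  · -- second lines and the basis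
    intro q hq hne i j hij
    obtain ⟨n1, n2, n3, n4⟩ := cne q hne
    by_cases hqu : q ≤ u
    · have h := cI q hq hqu n1 n2
      refine brow q hq hqu _ h.2.2.1 h.2.2.2.1 ?_ i j hij
      rintro b s (rfl | rfl) - h5
      exacts [fun _ _ => n1 h5, fun _ _ => n2 h5]
    · by_cases hqR : q ∈ Rp
      · have h := hII q hqR n3 n4
        rw [sup_comm q]
        refine brow _ h.2.2.1 h.2.2.2.1 q hq hqu ?_ i j hij
        rintro b s - hs - h5 -
        have h6 : s ≤ q ⊔ u := h5.trans (by rw [sup_comm]; exact sup_le_sup_left h.2.2.2.1 q)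
        rcases hs with rfl | rfl
        · exact n3 (hRP q hqR s hr1 h6)
        · exact n4 (hRP q hqR s hr2 h6)
      · intro e
        rcases bas_line b1 b2 r1 r2 i j hij with h | h | ⟨b, s, hb, hs, h⟩
        · rw [h, hb12] at e
          exact hqu (e ▸ le_sup_left)
        · rw [h] at e
          exact hgv q hq hqu hqR e
        · rw [h] at e
          rcases hb with rfl | rfl
          · exact (cIII q hq hqu hqR).2.2 b hb1 hbu1 (e ▸ le_sup_left)
          · exact (cIII q hq hqu hqR).2.2 b hb2 hbu2 (e ▸ le_sup_left)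
  · -- the planes
    intro q hq hne q' hq' hne' e
    obtain ⟨n1, n2, n3, n4⟩ := cne q hne
    obtain ⟨m1, m2, m3, m4⟩ := cne q' hne'
    by_cases hqu : q ≤ u
    · have h := cI q hq hqu n1 n2
      by_cases hqu' : q' ≤ u
      · by_contra hne2
        exact h.2.2.2.2.2.2 (two q hq hqu q' hq' hqu' hne2 _ (le_sup_left.trans le_sup_left)
          (e ▸ le_sup_left.trans le_sup_left))
      · exfalso
        by_cases hqR' : q' ∈ Rp
        · exact h.2.2.2.2.2.2 (by rw [e, (cII q' hqR' m3 m4).2]; exact le_sup_right)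
        · have h5 := (cIII q' hq' hqu' hqR').2.1 q hq hqu (e ▸ le_sup_left.trans le_sup_left)
          exact hH1 q hq hqu n1 n2 q' hq' hqu' hqR' h5.symm e.symm
    · by_cases hqR : q ∈ Rp
      · by_cases hqu' : q' ≤ u
        · exfalso
          have h' := cI q' hq' hqu' m1 m2
          exact h'.2.2.2.2.2.2 (by rw [← e, (cII q hqR n3 n4).2]; exact le_sup_right)
        · by_cases hqR' : q' ∈ Rp
          · rw [(cII q hqR n3 n4).2, (cII q' hqR' m3 m4).2] at e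
            exact hRP q hqR q' hqR' (e ▸ le_sup_left)
          · exfalso
            exact (hIII q' hq' hqu' hqR').2.2.2.2
              (by rw [← e, (cII q hqR n3 n4).2]; exact le_sup_right)
      · by_cases hqu' : q' ≤ u
        · exfalso
          have h5 := (cIII q hq hqu hqR).2.1 q' hq' hqu' (e ▸ le_sup_left.trans le_sup_left)
          exact hH1 q' hq' hqu' m1 m2 q hq hqu hqR h5.symm e
        · by_cases hqR' : q' ∈ Rp
          · exfalso
            exact (hIII q hq hqu hqR).2.2.2.2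
              (by rw [e, (cII q' hqR' m3 m4).2]; exact le_sup_right)
          · have h' := hIII q' hq' hqu' hqR'
            have h5 := (cIII q hq hqu hqR).2.1 _ h'.1 h'.2.1
              (e ▸ le_sup_right.trans le_sup_left)
            exact hH3 q hq hqu hqR q' hq' hqu' hqR' h5.symm e
  · -- the planes and the basis
    intro q hq hne i j k hij hik hjk e
    obtain ⟨n1, n2, n3, n4⟩ := cne q hne
    by_cases hqu : q ≤ u
    · have h := cI q hq hqu n1 n2
      rcases bas_plane b1 b2 r1 r2 i j k hij hik hjk with ⟨s, -, h5⟩ | ⟨b, hb, h5⟩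
      · rw [h5, hb12] at e
        exact h.2.2.2.2.2.2 (e ▸ le_sup_left)
      · rw [h5] at e
        rcases hb with rfl | rfl
        · exact h.2.2.2.2.2.2 (two q hq hqu b hb1 hbu1 n1 _ (le_sup_left.trans le_sup_left)
            (e ▸ le_sup_left))
        · exact h.2.2.2.2.2.2 (two q hq hqu b hb2 hbu2 n2 _ (le_sup_left.trans le_sup_left)
            (e ▸ le_sup_left))
    · by_cases hqR : q ∈ Rp
      · have hk := rkII q hq hqu
        rw [(cII q hqR n3 n4).2] at e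
        rcases bas_plane b1 b2 r1 r2 i j k hij hik hjk with ⟨s, hs, h5⟩ | ⟨b, hb, h5⟩
        · rw [h5, hb12] at e
          have hsq : s ≤ q ⊔ u := e ▸ le_sup_right
          rcases hs with rfl | rfl
          · exact n3 (hRP q hqR s hr1 hsq)
          · exact n4 (hRP q hqR s hr2 hsq)
        · rw [h5] at e
          exact huv _ hk le_sup_right (e ▸ (le_sup_left.trans le_sup_right))
            (e ▸ (le_sup_right.trans le_sup_right))
      · have h := hIII q hq hqu hqR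
        rcases bas_plane b1 b2 r1 r2 i j k hij hik hjk with ⟨s, hs, h5⟩ | ⟨b, hb, h5⟩
        · rw [h5, hb12] at e
          exact h.2.2.2.2 (e ▸ le_sup_left)
        · rw [h5] at e
          rcases hb with rfl | rfl
          · have h6 := (cIII q hq hqu hqR).2.1 b hb1 hbu1 (e ▸ le_sup_left)
            exact hH0 q hq hqu hqR (Or.inl h6.symm) (by rw [e, h6])
          · have h6 := (cIII q hq hqu hqR).2.1 b hb2 hbu2 (e ▸ le_sup_left)
            exact hH0 q hq hqu hqR (Or.inr h6.symm) (by rw [e, h6])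

end Pool.Agent.Helper38.SC
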